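import Mathlib
import Pool.Agent.W218.TX.Main

/-!
The uniform Hardy-Littlewood prime tuples conjecture: in every set `A` of at least `lam * log N` integers up to
`log ^ C N`, `lam > k`, a positive proportion of the `(k+1)`-element patterns, measured by the singular series, satisfies
the lower half of the asymptotic formula with any constant `θ < ∏ (1 - i / lam)`; this tends to `1` as `lam → ∞`.
-/

namespace Pool.Agent.Results.MP_485179_nt.SharpConstantProportion
open Finset Pool.Agent.H387R2.Uni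

open Classical in
theorem result :
    (∀ T : Finset ℕ, HasProd (fun p : Nat.Primes => locT T p) (CT T) ∧ (Adm T → 0 < CT T)) ∧
    ∀ k : ℕ, ∃ κ : ℝ, 0 < κ ∧ ∀ lam : ℝ, (k : ℝ) < lam → ∀ θ : ℝ, 0 < θ →
      θ < ∏ i ∈ range k, (1 - (i + 1 : ℝ) / lam) → ∀ q : ℕ, 1 ≤ q → ∀ C : ℝ, ∃ N₀ : ℕ, ∀ N : ℕ, N₀ ≤ N →
        ∀ (c : ℕ) (A : Finset ℕ), (∀ a ∈ A, a ≡ c [MOD q]) → (∀ a ∈ A, (a : ℝ) ≤ Real.log N ^ C) →
          lam * ((Nat.totient q : ℝ) / q) * Real.log N ≤ A.card →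
          κ * ((q : ℝ) / Nat.totient q) ^ k * (A.card : ℝ) ^ (k + 1) ≤ ∑ T ∈ A.powersetCard (k + 1), CT T ∧
          κ * (∏ i ∈ range k, (1 - (i + 1 : ℝ) / lam) - θ) * ∑ T ∈ A.powersetCard (k + 1), CT T ≤
            ∑ T ∈ (A.powersetCard (k + 1)).filter
              (fun T => θ * CT T * (N / Real.log N ^ (k + 1)) ≤ piT T N), CT T := by
  refine ⟨fun T => ⟨CT_hasProd T, fun hT => ?_⟩, fun k => Pool.Agent.W218.TX.sharpMain k⟩
  rw [← CT_en]
  apply Pool.Agent.H386R2.HL.singularSeries_pos (en_inj T)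
  intro p hp
  rw [nu_en]
  exact hT p hp

end Pool.Agent.Results.MP_485179_nt.SharpConstantProportion
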